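import Pool.Agent.Helper79.GT.St6

/-! # GT, module CRS: scores as numbers -/

set_option autoImplicit false

namespace Pool.Agent.Helper72.GT

open Pool.Agent.Helper79.GT Pool.Agent.Helper79.GS Pool.Agent.Helper19.SK Pool.Agent.Helper73.DC
open Finset
open scoped Classical

/-- The arithmetic of the two parts of the score. -/
private lemma score_arith (x y g : ℕ) (hg : 1 ≤ g) :
    ((if y < x then 4 * ((x - y + g - 1) / g) else 0 : ℕ) : ℤ) -
      ((if y < x then 0 else 4 * ((y - x) / g) : ℕ) : ℤ) = -4 * (-((x : ℤ) - y) / (g : ℤ)) := by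
  have hg' : (0 : ℤ) < g := by exact_mod_cast hg
  by_cases h : y < x
  · rw [if_pos h, if_pos h]
    obtain ⟨d, rfl⟩ : ∃ d, x = y + d := ⟨x - y, by omega⟩
    have hd : 1 ≤ d := by omega
    have e1 : y + d - y + g - 1 = d + g - 1 := by omega
    rw [e1]
    have e2 : -(((y + d : ℕ) : ℤ) - (y : ℤ)) = -(d : ℤ) := by push_cast; ring
    rw [e2]
    have e3 : ((d + g - 1 : ℕ) : ℤ) = (d : ℤ) + g - 1 := by
      rw [Nat.cast_sub (by omega)]; push_cast; ring
    push_cast
    rw [e3]
    -- `(d + g - 1) / g = - (-d / g)`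
    have e4 : ((d : ℤ) + g - 1) / (g : ℤ) = -(-(d : ℤ) / (g : ℤ)) := by
      have h1 := Int.mul_ediv_add_emod (-(d : ℤ)) (g : ℤ)
      have h2 := Int.emod_nonneg (-(d : ℤ)) hg'.ne'
      have h3 := Int.emod_lt_of_pos (-(d : ℤ)) hg'
      set q : ℤ := -(d : ℤ) / (g : ℤ)
      set r : ℤ := -(d : ℤ) % (g : ℤ)
      have e5 : (d : ℤ) + g - 1 = (g - 1 - r) + (-q) * g := by linarith
      rw [e5, Int.add_mul_ediv_right _ _ hg'.ne', Int.ediv_eq_zero_of_lt (by linarith) (by linarith)]
      ring
    rw [e4]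
    ring
  · rw [if_neg h, if_neg h]
    obtain ⟨d, rfl⟩ : ∃ d, y = x + d := ⟨y - x, by omega⟩
    have e1 : x + d - x = d := by omega
    rw [e1]
    have e2 : -((x : ℤ) - ((x + d : ℕ) : ℤ)) = (d : ℤ) := by push_cast; ring
    rw [e2]
    push_cast
    ring

private lemma gV_pos (tc : Bool) : 1 ≤ gV tc := by
  cases tc <;> simp [gV]

private lemma bn_true : bn true = 1 := rfl
private lemma bn_false : bn false = 0 := rfl

/-- Module CRS. -/
theorem hCRS (hCOD : StCOD) (hARE : StARE) (hNUV : StNUV) : Pool.Agent.Helper79.GT.StCRS := by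
  intro sk tc e Sm D n w hn hnw hN hPP x
  have hTT : TT (NN e w) w = 3 ^ (n * n) * (2 * BB w + 1) := by
    rw [TT, hPP, MM]
  have hpos : 0 < 3 ^ (n * n) := by positivity
  rcases x with ⟨P, i⟩ | c
  · -- a board in the window
    have hcl : codeB P < 3 ^ (n * n) := ((hCOD n).1 P).1
    have hmod : (codeB P + 3 ^ (n * n) * i.val) % 3 ^ (n * n) = codeB P := by
      rw [Nat.add_mul_mod_self_left, Nat.mod_eq_of_lt hcl]
    have hdiv : (codeB P + 3 ^ (n * n) * i.val) / 3 ^ (n * n) = i.val := by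
      rw [Nat.add_mul_div_left _ _ hpos, Nat.div_eq_of_lt hcl, zero_add]
    have hlt : codeB P + 3 ^ (n * n) * i.val < 3 ^ (n * n) * (2 * BB w + 1) := by
      have hi : i.val + 1 ≤ 2 * BB w + 1 := i.isLt
      calc codeB P + 3 ^ (n * n) * i.val < 3 ^ (n * n) + 3 ^ (n * n) * i.val := by omega
        _ = 3 ^ (n * n) * (i.val + 1) := by ring
        _ ≤ 3 ^ (n * n) * (2 * BB w + 1) := Nat.mul_le_mul_left _ hi
    have hw : wcode (n := n) (2 * BB w + 1) (Sum.inl (P, i)) = codeB P + 3 ^ (n * n) * i.val := rfl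
    set u : ℕ := codeB P + 3 ^ (n * n) * i.val with hu
    have hxN : xN tc (NN e w) w u = if tc = true then terr (grid n) P true + kbV w + i.val
        else area (grid n) P true := by
      have a1 := (hNUV (NN e w) n hN true P).2
      have a2 := hARE (NN e w) n hN true P
      rw [bn_true] at a1 a2
      rw [xN, hPP, hmod, hdiv, hnw, a1, a2]
    have hyN : yN tc (NN e w) w u = if tc = true then terr (grid n) P false + kwV w + BB w
        else area (grid n) P false := by
      have a1 := (hNUV (NN e w) n hN false P).2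
      have a2 := hARE (NN e w) n hN false P
      rw [bn_false] at a1 a2
      rw [yN, hPP, hmod, hnw, a1, a2]
    have hsc : (goG (grid n) tc).sc P (((kbV w : ℤ) - kwV w) - (BB w : ℕ) + (i.val : ℕ)) =
        (xN tc (NN e w) w u : ℤ) - (yN tc (NN e w) w u : ℤ) := by
      rw [hxN, hyN]
      cases tc
      · simp [goG]
      · simp only [goG, if_true]
        push_cast
        ring
    have hL : (wA (goG (grid n) tc) (dcl D w) (gV tc) (2 * BB w + 1) (BB w)
        ((kbV w : ℤ) - kwV w)).s (Sum.inl (P, i)) =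
        -4 * (-((goG (grid n) tc).sc P (((kbV w : ℤ) - kwV w) - (BB w : ℕ) + (i.val : ℕ))) /
          (gV tc : ℤ)) := rfl
    have hR : (AX (goX sk tc e Sm) w).s u = (arV tc (NN e w) w 1 u : ℤ) - (arV tc (NN e w) w 0 u : ℤ) :=
      rfl
    have hu' : u < TT (NN e w) w := by rw [hTT]; exact hlt
    have h1 : arV tc (NN e w) w 1 u = if yN tc (NN e w) w u < xN tc (NN e w) w u then
        4 * ((xN tc (NN e w) w u - yN tc (NN e w) w u + gV tc - 1) / gV tc) else 0 := by
      rw [arV, if_pos hu']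
      by_cases h : yN tc (NN e w) w u < xN tc (NN e w) w u
      · rw [if_pos h, if_pos h, if_pos rfl]
      · rw [if_neg h, if_neg h, if_pos rfl]
    have h0 : arV tc (NN e w) w 0 u = if yN tc (NN e w) w u < xN tc (NN e w) w u then 0
        else 4 * ((yN tc (NN e w) w u - xN tc (NN e w) w u) / gV tc) := by
      rw [arV, if_pos hu']
      by_cases h : yN tc (NN e w) w u < xN tc (NN e w) w u
      · rw [if_pos h, if_pos h, if_neg (by norm_num)]
      · rw [if_neg h, if_neg h, if_neg (by norm_num)]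
    rw [hL, hw, hR, h1, h0, score_arith _ _ _ (gV_pos tc), hsc]
  · -- a declared win
    have hw : wcode (n := n) (2 * BB w + 1) (Sum.inr c) = 3 ^ (n * n) * (2 * BB w + 1) + bn c := rfl
    have hL : (wA (goG (grid n) tc) (dcl D w) (gV tc) (2 * BB w + 1) (BB w)
        ((kbV w : ℤ) - kwV w)).s (Sum.inr c) = if c = true then 4 else 0 := rfl
    rw [hL, hw, ← hTT]
    have hR : (AX (goX sk tc e Sm) w).s (TT (NN e w) w + bn c) =
        (arV tc (NN e w) w 1 (TT (NN e w) w + bn c) : ℤ) -
          (arV tc (NN e w) w 0 (TT (NN e w) w + bn c) : ℤ) := rfl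
    have hn' : ¬ TT (NN e w) w + bn c < TT (NN e w) w := by omega
    rw [hR, arV, arV, if_neg hn', if_neg hn']
    cases c
    · rw [bn_false]; simp
    · rw [bn_true]; simp

end Pool.Agent.Helper72.GT
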